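import Mathlib

/-!
# Tools for plane curves

* `distinct_roots`: for coprime `p, q` over an algebraically closed field of characteristic zero,
  the polynomial `p - c q` has `max (deg p) (deg q)` distinct roots outside a given finite set, for
  all but finitely many `c`.
* `elim`: if `f` is irreducible in `R[X]` (`R` a unique factorisation domain) and does not divide
  `g` then `(f, g)` contains a nonzero element of `R`.
-/

set_option autoImplicit false

open Polynomial

namespace Pool.Agent.R863.Curve

theorem distinct_roots {K : Type*} [Field K] [IsAlgClosed K] [CharZero K] {p q : K[X]}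
    (hpq : IsCoprime p q) (hn : 1 ≤ max p.natDegree q.natDegree) {T : Set K} (hT : T.Finite) :
    ∃ S : Set K, S.Finite ∧ ∀ c ∉ S, ∃ Z : Finset K, Z.card = max p.natDegree q.natDegree ∧
      ∀ s ∈ Z, p.eval s = c * q.eval s ∧ q.eval s ≠ 0 ∧ s ∉ T := by
  classical
  obtain ⟨n, hn'⟩ : ∃ n, n = max p.natDegree q.natDegree := ⟨_, rfl⟩
  rw [← hn'] at hn ⊢
  have hW : wronskian p q ≠ 0 := by
    intro h
    obtain ⟨h1, h2⟩ := hpq.wronskian_eq_zero_iff.1 h
    have := derivative_eq_zero.1 h1
    have := derivative_eq_zero.1 h2
    omega
  have hcommon : ∀ s, p.eval s = 0 → q.eval s = 0 → False := by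
    intro s h1 h2
    obtain ⟨a, b, hab⟩ := hpq
    have := congrArg (eval s) hab
    simp [h1, h2] at this
  refine ⟨{p.coeff n / q.coeff n} ∪ (fun s => p.eval s / q.eval s) ''
    (((wronskian p q).roots.toFinset : Set K) ∪ T), ?_, ?_⟩
  · exact (Set.finite_singleton _).union (((Finset.finite_toSet _).union hT).image _)
  intro c hc
  simp only [Set.mem_union, Set.mem_singleton_iff, Set.mem_image, not_or, not_exists,
    not_and] at hc
  obtain ⟨hc1, hc2⟩ := hc
  set f : K[X] := p - C c * q with hf
  have hcoeff : f.coeff n ≠ 0 := by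
    rw [hf, coeff_sub, coeff_C_mul]
    intro h
    by_cases hq : q.coeff n = 0
    · rw [hq, mul_zero, sub_zero] at h
      rcases le_total p.natDegree q.natDegree with hle | hle
      · rw [max_eq_right hle] at hn'
        rw [hn'] at hq
        have : q = 0 := leadingCoeff_eq_zero.1 hq
        rw [this] at hn'
        simp at hn'
        omega
      · rw [max_eq_left hle] at hn'
        rw [hn'] at h
        have : p = 0 := leadingCoeff_eq_zero.1 h
        rw [this] at hn'
        simp at hn'
        omega
    · apply hc1
      field_simp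
      linear_combination -h
  have hdeg : f.natDegree = n := by
    apply le_antisymm
    · rw [hf]
      refine (natDegree_sub_le _ _).trans (max_le ?_ ?_)
      · rw [hn']; exact le_max_left _ _
      · refine (natDegree_C_mul_le _ _).trans ?_
        rw [hn']; exact le_max_right _ _
    · exact le_natDegree_of_ne_zero hcoeff
  have hroot : ∀ s, f.eval s = 0 → p.eval s = c * q.eval s ∧ q.eval s ≠ 0 ∧ s ∉ T ∧
      f.derivative.eval s ≠ 0 := by
    intro s hs
    have h1 : p.eval s = c * q.eval s := by
      rw [hf, eval_sub, eval_mul, eval_C] at hs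
      linear_combination hs
    have h2 : q.eval s ≠ 0 := by
      intro h
      rw [h, mul_zero] at h1
      exact hcommon s h1 h
    have h3 : p.eval s / q.eval s = c := by
      rw [h1]
      field_simp
    refine ⟨h1, h2, ?_, ?_⟩
    · intro hsT
      exact hc2 s (Or.inr hsT) h3
    · intro h4
      apply hc2 s (Or.inl ?_) h3
      rw [Finset.mem_coe, Multiset.mem_toFinset, mem_roots hW, IsRoot.def]
      rw [hf, derivative_sub, derivative_C_mul, eval_sub, eval_mul, eval_C] at h4
      unfold wronskian
      rw [eval_sub, eval_mul, eval_mul, h1]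
      linear_combination (-(q.eval s)) * h4
  have hf0 : f ≠ 0 := by
    intro h
    rw [h] at hcoeff
    simp at hcoeff
  have hsep : f.roots.Nodup := by
    rw [Multiset.nodup_iff_count_le_one]
    intro s
    rw [count_roots]
    by_contra hlt
    push Not at hlt
    rw [one_lt_rootMultiplicity_iff_isRoot hf0] at hlt
    exact (hroot s hlt.1).2.2.2 hlt.2
  refine ⟨f.roots.toFinset, ?_, ?_⟩
  · rw [Multiset.toFinset_card_of_nodup hsep, IsAlgClosed.card_roots_eq_natDegree, hdeg]
  · intro s hs
    rw [Multiset.mem_toFinset, mem_roots hf0] at hs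
    obtain ⟨h1, h2, h3, -⟩ := hroot s hs
    exact ⟨h1, h2, h3⟩

/-- elimination -/
theorem elim {R : Type*} [CommRing R] [IsDomain R] [UniqueFactorizationMonoid R] {f g : R[X]}
    (hf : Irreducible f) (hfg : ¬ f ∣ g) : ∃ (a b : R[X]) (r : R), r ≠ 0 ∧
      a * f + b * g = C r := by
  classical
  by_cases h0 : f.natDegree = 0
  · obtain ⟨r, hr⟩ := natDegree_eq_zero.1 h0
    refine ⟨1, 0, r, ?_, ?_⟩
    · rintro rfl
      rw [C_0] at hr
      exact hf.ne_zero hr.symm
    · rw [hr]; ring
  let _ : NormalizedGCDMonoid R := Classical.choice inferInstance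
  have hprim : f.IsPrimitive := hf.isPrimitive h0
  have hirr : Irreducible (f.map (algebraMap R (FractionRing R))) :=
    hprim.irreducible_iff_irreducible_map_fraction_map.1 hf
  have hnd : ¬ f.map (algebraMap R (FractionRing R)) ∣ g.map (algebraMap R (FractionRing R)) :=
    fun h => hfg (hprim.dvd_of_fraction_map_dvd_fraction_map h)
  have hcop : IsCoprime (f.map (algebraMap R (FractionRing R)))
      (g.map (algebraMap R (FractionRing R))) := hirr.coprime_iff_not_dvd.2 hnd
  have hres : f.resultant g ≠ 0 := by
    intro h
    have h1 : (f.map (algebraMap R (FractionRing R))).resultant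
        (g.map (algebraMap R (FractionRing R))) = 0 := by
      have h2 := resultant_map_map f g f.natDegree g.natDegree (algebraMap R (FractionRing R))
      rw [h, map_zero] at h2
      rw [natDegree_map_eq_of_injective (IsFractionRing.injective R (FractionRing R)),
        natDegree_map_eq_of_injective (IsFractionRing.injective R (FractionRing R))]
      exact h2
    exact (resultant_eq_zero_iff.1 h1).2 hcop
  obtain ⟨a, b, -, -, hab⟩ := exists_mul_add_mul_eq_C_resultant f g le_rfl le_rfl (Or.inl h0)
  exact ⟨a, b, _, hres, by rw [← hab]; ring⟩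

end Pool.Agent.R863.Curve
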