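import Mathlib
import Pool.Agent.R863.Curve

/-!
# Forms and tuples of forms
-/

set_option autoImplicit false

open MvPolynomial

namespace Pool.Agent.R863.Forms

variable {K : Type*} [Field K]

/-- the values of a tuple of polynomials -/
noncomputable def ev {m n : ℕ} (F : Fin n → MvPolynomial (Fin m) K) (x : Fin m → K) : Fin n → K :=
  fun i => eval x (F i)

@[simp] lemma ev_apply {m n : ℕ} (F : Fin n → MvPolynomial (Fin m) K) (x : Fin m → K) (i : Fin n) :
    ev F x i = eval x (F i) := rfl

lemma eval_smul {σ : Type*} {φ : MvPolynomial σ K} {n : ℕ} (h : φ.IsHomogeneous n) (c : K)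
    (x : σ → K) : eval (c • x) φ = c ^ n * eval x φ := by
  rw [eval_eq, eval_eq, Finset.mul_sum]
  refine Finset.sum_congr rfl fun d hd => ?_
  have hdeg : ∑ i ∈ d.support, d i = n := (h.degree_eq_sum_deg_support hd).symm
  have h1 : ∏ i ∈ d.support, (c • x) i ^ d i = c ^ n * ∏ i ∈ d.support, x i ^ d i := by
    simp only [Pi.smul_apply, smul_eq_mul, mul_pow]
    rw [Finset.prod_mul_distrib, Finset.prod_pow_eq_pow_sum, hdeg]
  rw [h1]
  ring

lemma ev_smul {m n d : ℕ} {F : Fin n → MvPolynomial (Fin m) K} (h : ∀ i, (F i).IsHomogeneous d)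
    (c : K) (x : Fin m → K) : ev F (c • x) = c ^ d • ev F x := by
  ext i
  simp only [ev_apply, Pi.smul_apply, smul_eq_mul]
  exact eval_smul (h i) c x

lemma eval_aeval {m n : ℕ} (F : Fin n → MvPolynomial (Fin m) K) (P : MvPolynomial (Fin n) K)
    (x : Fin m → K) : eval x (aeval F P) = eval (ev F x) P := by
  rw [aeval_def, eval₂_eq', map_sum, eval_eq']
  refine Finset.sum_congr rfl fun d _ => ?_
  rw [map_mul, map_prod]
  congr 1
  · exact eval_C _
  · refine Finset.prod_congr rfl fun i _ => ?_
    rw [map_pow]
    rfl

lemma ev_zero {m n d : ℕ} {F : Fin n → MvPolynomial (Fin m) K} (h : ∀ i, (F i).IsHomogeneous d)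
    (hd : d ≠ 0) : ev F 0 = 0 := by
  have := ev_smul h 0 0
  rw [zero_smul, zero_pow hd, zero_smul] at this
  exact this

lemma finSucc_rename (r : MvPolynomial (Fin 2) K) :
    finSuccEquiv K 2 (rename Fin.succ r) = Polynomial.C r := by
  induction r using MvPolynomial.induction_on with
  | C a => simp [finSuccEquiv_apply]
  | add p q hp hq => rw [map_add, map_add, hp, hq, map_add]
  | mul_X p i hp =>
    rw [map_mul, map_mul, hp, rename_X, finSuccEquiv_X_succ, map_mul]

/-- the smallest curve containing the image of a tuple of forms -/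
theorem exists_curve [Infinite K] {n : ℕ} (hn : 0 < n) (u : Fin 3 → MvPolynomial (Fin 2) K)
    (hu : ∀ i, (u i).IsHomogeneous n)
    (hind : ∀ r : MvPolynomial (Fin 2) K, aeval ![u 1, u 2] r = 0 → r = 0)
    {N : MvPolynomial (Fin 3) K} (hN : N ≠ 0) (hNu : aeval u N = 0) :
    ∃ E : MvPolynomial (Fin 3) K, Irreducible E ∧ (∃ d, E.IsHomogeneous d) ∧ aeval u E = 0 ∧
      ∀ P, aeval u P = 0 → E ∣ P := by
  classical
  obtain ⟨E, ⟨hE0, hEu⟩, hmin⟩ : ∃ E : MvPolynomial (Fin 3) K, (E ≠ 0 ∧ aeval u E = 0) ∧
      ∀ P : MvPolynomial (Fin 3) K, P ≠ 0 → aeval u P = 0 → E.totalDegree ≤ P.totalDegree := by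
    have hne : {d : ℕ | ∃ E : MvPolynomial (Fin 3) K, E ≠ 0 ∧ aeval u E = 0 ∧
        E.totalDegree = d}.Nonempty := ⟨_, N, hN, hNu, rfl⟩
    obtain ⟨E, h1, h2, h3⟩ := Nat.sInf_mem hne
    refine ⟨E, ⟨h1, h2⟩, fun P hP hPu => ?_⟩
    rw [h3]
    exact Nat.sInf_le ⟨P, hP, hPu, rfl⟩
  have hirr : Irreducible E := by
    constructor
    · intro hunit
      obtain ⟨P, hP⟩ := hunit.exists_right_inv
      have := congrArg (aeval u) hP
      rw [map_mul, hEu, zero_mul, map_one] at this
      exact zero_ne_one this
    · intro P Q hPQ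
      have hP0 : P ≠ 0 := by rintro rfl; rw [zero_mul] at hPQ; exact hE0 hPQ
      have hQ0 : Q ≠ 0 := by rintro rfl; rw [mul_zero] at hPQ; exact hE0 hPQ
      have hdeg : E.totalDegree = P.totalDegree + Q.totalDegree := by
        rw [hPQ, totalDegree_mul_of_isDomain hP0 hQ0]
      have hor : aeval u P = 0 ∨ aeval u Q = 0 := by
        rw [hPQ, map_mul] at hEu
        exact mul_eq_zero.1 hEu
      have hunit : ∀ R : MvPolynomial (Fin 3) K, R ≠ 0 → R.totalDegree = 0 → IsUnit R := by
        intro R hR hR0
        rw [totalDegree_eq_zero_iff_eq_C] at hR0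
        rw [hR0]
        refine (isUnit_iff_ne_zero.2 fun h => ?_).map C
        rw [hR0, h, C_0] at hR
        exact hR rfl
      rcases hor with h | h
      · right
        have := hmin P hP0 h
        exact hunit Q hQ0 (by omega)
      · left
        have := hmin Q hQ0 h
        exact hunit P hP0 (by omega)
  refine ⟨E, hirr, ?_, hEu, ?_⟩
  · -- homogeneous
    have hcomp : ∀ k, aeval u (homogeneousComponent k E) = 0 := by
      intro k
      apply MvPolynomial.funext
      intro τ
      rw [map_zero]
      have h1 : ∀ c : K, ∑ i ∈ Finset.range (E.totalDegree + 1),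
          (c ^ n) ^ i * eval (ev u τ) (homogeneousComponent i E) = 0 := by
        intro c
        have h2 : eval (ev u (c • τ)) E = 0 := by
          rw [← eval_aeval, hEu, map_zero]
        rw [ev_smul hu] at h2
        rw [← sum_homogeneousComponent E, map_sum] at h2
        rw [← h2]
        refine Finset.sum_congr rfl fun i _ => ?_
        rw [eval_smul (homogeneousComponent_isHomogeneous i E)]
      rw [eval_aeval]
      by_cases hk : k < E.totalDegree + 1
      · -- compare coefficients of a polynomial in `c`
        let p : Polynomial K := ∑ i ∈ Finset.range (E.totalDegree + 1),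
          Polynomial.C (eval (ev u τ) (homogeneousComponent i E)) * Polynomial.X ^ (n * i)
        have hp : p = 0 := by
          apply Polynomial.funext
          intro c
          simp only [p, Polynomial.eval_finsetSum, Polynomial.eval_mul, Polynomial.eval_C,
            Polynomial.eval_pow, Polynomial.eval_X, Polynomial.eval_zero]
          rw [← h1 c]
          refine Finset.sum_congr rfl fun i _ => ?_
          rw [pow_mul]
          ring
        have h3 := congrArg (fun q => Polynomial.coeff q (n * k)) hp
        simp only [p, Polynomial.finsetSum_coeff, Polynomial.coeff_C_mul_X_pow,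
          Polynomial.coeff_zero] at h3
        rw [Finset.sum_eq_single k] at h3
        · simpa using h3
        · intro i _ hik
          rw [if_neg]
          intro h
          exact hik (Nat.eq_of_mul_eq_mul_left hn h).symm
        · intro h
          exact absurd (Finset.mem_range.2 hk) h
      · rw [homogeneousComponent_eq_zero _ _ (by omega)]
        simp
    refine ⟨E.totalDegree, ?_⟩
    have hzero : ∀ k, k ≠ E.totalDegree → homogeneousComponent k E = 0 := by
      intro k hk
      by_contra hne
      have h1 := hmin _ hne (hcomp k)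
      have h2 := (homogeneousComponent_isHomogeneous k E).totalDegree hne
      rw [h2] at h1
      rcases Nat.lt_or_gt_of_ne hk with h | h
      · omega
      · exact hne (homogeneousComponent_eq_zero _ _ h)
    have h3 : E = homogeneousComponent E.totalDegree E := by
      conv_lhs => rw [← sum_homogeneousComponent E]
      rw [Finset.sum_eq_single E.totalDegree]
      · intro i _ hi
        exact hzero i hi
      · intro h
        exact absurd (Finset.mem_range.2 (Nat.lt_succ_self _)) h
    conv_lhs => rw [h3]
    exact homogeneousComponent_isHomogeneous _ _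
  · -- generator
    intro P hP
    by_contra hdvd
    have hirr' : Irreducible (finSuccEquiv K 2 E) :=
      (MulEquiv.irreducible_iff (finSuccEquiv K 2).toRingEquiv.toMulEquiv).2 hirr
    have hdvd' : ¬ finSuccEquiv K 2 E ∣ finSuccEquiv K 2 P := by
      rintro ⟨Q, hQ⟩
      apply hdvd
      refine ⟨(finSuccEquiv K 2).symm Q, ?_⟩
      apply (finSuccEquiv K 2).injective
      rw [map_mul, AlgEquiv.apply_symm_apply, hQ]
    obtain ⟨a, b, r, hr, hab⟩ := Curve.elim hirr' hdvd'
    apply hr
    apply hind
    have h1 : (finSuccEquiv K 2).symm a * E + (finSuccEquiv K 2).symm b * P =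
        rename Fin.succ r := by
      apply (finSuccEquiv K 2).injective
      rw [map_add, map_mul, map_mul, AlgEquiv.apply_symm_apply, AlgEquiv.apply_symm_apply, hab,
        finSucc_rename]
    have h2 := congrArg (aeval u) h1
    rw [map_add, map_mul, map_mul, hEu, hP, mul_zero, mul_zero, add_zero, aeval_rename] at h2
    rw [h2]
    congr 2
    ext i
    fin_cases i <;> rfl

end Pool.Agent.R863.Forms
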