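import Mathlib
import Pool.Agent.R863.Forms

/-!
# Finiteness of the intersection of two plane curves without common component
-/

set_option autoImplicit false

open MvPolynomial
open scoped LinearAlgebra.Projectivization

namespace Pool.Agent.R863.FinPts

open Forms

variable {K : Type*} [Field K]

lemma elim0 {f g : MvPolynomial (Fin 3) K} (hf : Irreducible f) (hfg : ¬ f ∣ g) :
    ∃ r : MvPolynomial (Fin 2) K, r ≠ 0 ∧ ∀ x, eval x f = 0 → eval x g = 0 →
      eval (fun j => x (Fin.succ j)) r = 0 := by
  have hirr' : Irreducible (finSuccEquiv K 2 f) :=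
    (MulEquiv.irreducible_iff (finSuccEquiv K 2).toRingEquiv.toMulEquiv).2 hf
  have hdvd' : ¬ finSuccEquiv K 2 f ∣ finSuccEquiv K 2 g := by
    rintro ⟨Q, hQ⟩
    apply hfg
    refine ⟨(finSuccEquiv K 2).symm Q, ?_⟩
    apply (finSuccEquiv K 2).injective
    rw [map_mul, AlgEquiv.apply_symm_apply, hQ]
  obtain ⟨a, b, r, hr, hab⟩ := Curve.elim hirr' hdvd'
  refine ⟨r, hr, fun x hfx hgx => ?_⟩
  have h1 : (finSuccEquiv K 2).symm a * f + (finSuccEquiv K 2).symm b * g =
      rename Fin.succ r := by
    apply (finSuccEquiv K 2).injective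
    rw [map_add, map_mul, map_mul, AlgEquiv.apply_symm_apply, AlgEquiv.apply_symm_apply, hab,
      finSucc_rename]
  have h2 := congrArg (eval x) h1
  rw [map_add, map_mul, map_mul, hfx, hgx, mul_zero, mul_zero, add_zero, eval_rename] at h2
  exact h2.symm

lemma elim3 (i : Fin 3) {f g : MvPolynomial (Fin 3) K} (hf : Irreducible f) (hfg : ¬ f ∣ g) :
    ∃ r : MvPolynomial (Fin 2) K, r ≠ 0 ∧ ∀ x, eval x f = 0 → eval x g = 0 →
      eval (fun j => x (Equiv.swap 0 i (Fin.succ j))) r = 0 := by
  set σ : Fin 3 ≃ Fin 3 := Equiv.swap 0 i with hσ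
  have hf' : Irreducible (renameEquiv K σ f) :=
    (MulEquiv.irreducible_iff (renameEquiv K σ).toRingEquiv.toMulEquiv).2 hf
  have hfg' : ¬ renameEquiv K σ f ∣ renameEquiv K σ g := by
    rintro ⟨Q, hQ⟩
    apply hfg
    refine ⟨(renameEquiv K σ).symm Q, ?_⟩
    apply (renameEquiv K σ).injective
    rw [map_mul, AlgEquiv.apply_symm_apply, hQ]
  obtain ⟨r, hr, h⟩ := elim0 hf' hfg'
  refine ⟨r, hr, fun x hfx hgx => ?_⟩
  have hσσ : ∀ j, σ (σ j) = j := fun j => Equiv.swap_apply_self 0 i j
  have := h (fun j => x (σ j)) ?_ ?_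
  · exact this
  · rw [renameEquiv_apply, eval_rename]
    refine (congrArg (fun z => eval z f) ?_).trans hfx
    ext j
    simp [hσσ]
  · rw [renameEquiv_apply, eval_rename]
    refine (congrArg (fun z => eval z g) ?_).trans hgx
    ext j
    simp [hσσ]

lemma eval_poly2 (g : Fin 2 → Polynomial K) (P : MvPolynomial (Fin 2) K) (s : K) :
    (aeval g P).eval s = eval (fun i => (g i).eval s) P := by
  rw [aeval_def, eval₂_eq', Polynomial.eval_finsetSum, eval_eq']
  refine Finset.sum_congr rfl fun m _ => ?_
  rw [Polynomial.eval_mul, Polynomial.eval_prod]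
  congr 1
  · simp
  · refine Finset.prod_congr rfl fun i _ => ?_
    rw [Polynomial.eval_pow]

lemma dir_finite [Infinite K] {r : MvPolynomial (Fin 2) K} (hr : r ≠ 0) :
    {c : K | ∀ t : K, eval ![t * c, t] r = 0}.Finite := by
  by_contra hinf
  replace hinf : {c : K | ∀ t : K, eval ![t * c, t] r = 0}.Infinite := hinf
  have h1 : ∀ v : K, v ≠ 0 → ∀ x, eval ![x, v] r = 0 := by
    intro v hv
    set p : Polynomial K := aeval ![Polynomial.X, Polynomial.C v] r with hp
    have hpe : ∀ x, p.eval x = eval ![x, v] r := by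
      intro x
      rw [hp, eval_poly2]
      congr 2
      ext i
      fin_cases i <;> simp
    have hp0 : p = 0 := by
      apply Polynomial.eq_zero_of_infinite_isRoot
      have himg : ((fun c => v * c) '' {c : K | ∀ t : K, eval ![t * c, t] r = 0}).Infinite :=
        hinf.image (fun a _ b _ h => mul_left_cancel₀ hv h)
      refine himg.mono ?_
      rintro _ ⟨c, hc, rfl⟩
      show p.eval (v * c) = 0
      rw [hpe]
      exact hc v
    intro x
    rw [← hpe, hp0, Polynomial.eval_zero]
  have h2 : X 1 * r = 0 := by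
    apply MvPolynomial.funext
    intro x
    rw [map_mul, eval_X, map_zero]
    by_cases hx : x 1 = 0
    · rw [hx, zero_mul]
    · have := h1 (x 1) hx (x 0)
      have hx' : x = ![x 0, x 1] := by
        ext i
        fin_cases i <;> rfl
      rw [← hx'] at this
      rw [this, mul_zero]
  rcases mul_eq_zero.1 h2 with h | h
  · exact X_ne_zero _ h
  · exact hr h

lemma dir_finite' [Infinite K] {r : MvPolynomial (Fin 2) K} (hr : r ≠ 0) :
    {c : K | ∀ t : K, eval ![t, t * c] r = 0}.Finite := by
  set σ : Fin 2 ≃ Fin 2 := Equiv.swap 0 1 with hσ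
  have hr' : rename σ r ≠ 0 := by
    intro h
    apply hr
    apply rename_injective σ σ.injective
    rw [h, map_zero]
  refine (dir_finite hr').subset ?_
  intro c hc t
  rw [eval_rename]
  refine (congrArg (fun z => eval z r) ?_).trans (hc t)
  ext i
  fin_cases i
  · show (![t * c, t] : Fin 2 → K) (Equiv.swap 0 1 0) = _
    rw [Equiv.swap_apply_left]
    rfl
  · show (![t * c, t] : Fin 2 → K) (Equiv.swap 0 1 1) = _
    rw [Equiv.swap_apply_right]
    rfl

/-- two curves without common component have finitely many common points -/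
theorem finite_inter [Infinite K] {f g : MvPolynomial (Fin 3) K} {d e : ℕ}
    (hf : Irreducible f) (hfh : f.IsHomogeneous d) (hgh : g.IsHomogeneous e) (hfg : ¬ f ∣ g) :
    {P : ℙ K (Fin 3 → K) | eval P.rep f = 0 ∧ eval P.rep g = 0}.Finite := by
  obtain ⟨r0, hr0, h0⟩ := elim3 0 hf hfg
  obtain ⟨r1, hr1, h1⟩ := elim3 1 hf hfg
  obtain ⟨r2, hr2, h2⟩ := elim3 2 hf hfg
  have hv1 : ∀ a b : K, (![a, b, 1] : Fin 3 → K) ≠ 0 := by
    intro a b h
    have := congrFun h 2
    simp at this
  have hv2 : ∀ a : K, (![a, 1, 0] : Fin 3 → K) ≠ 0 := by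
    intro a h
    have := congrFun h 1
    simp at this
  have hv3 : (![1, 0, 0] : Fin 3 → K) ≠ 0 := by
    intro h
    have := congrFun h 0
    simp at this
  have F0 := dir_finite hr0
  have F1 := dir_finite hr1
  have F2 := dir_finite' hr2
  have hfin : ((fun p : K × K => Projectivization.mk K ![p.1, p.2, 1] (hv1 p.1 p.2)) ''
      ({c : K | ∀ t : K, eval ![t * c, t] r1 = 0} ×ˢ {c : K | ∀ t : K, eval ![t * c, t] r0 = 0}) ∪
      ((fun a : K => Projectivization.mk K ![a, 1, 0] (hv2 a)) ''
        {c : K | ∀ t : K, eval ![t, t * c] r2 = 0} ∪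
      {Projectivization.mk K ![1, 0, 0] hv3})).Finite :=
    ((F1.prod F0).image _).union ((F2.image _).union (Set.finite_singleton _))
  refine hfin.subset ?_
  rintro P ⟨hPf, hPg⟩
  set x := P.rep with hx
  have hPmk : P = Projectivization.mk K x P.rep_nonzero := (Projectivization.mk_rep P).symm
  have hsf : ∀ c : K, eval (c • x) f = 0 := fun c => by rw [eval_smul hfh, hPf, mul_zero]
  have hsg : ∀ c : K, eval (c • x) g = 0 := fun c => by rw [eval_smul hgh, hPg, mul_zero]
  have k0 : ∀ c : K, eval ![c * x 1, c * x 2] r0 = 0 := by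
    intro c
    refine (congrArg (fun z => eval z r0) ?_).trans (h0 (c • x) (hsf c) (hsg c))
    ext i
    fin_cases i <;> simp [Equiv.swap_self]
  have k1 : ∀ c : K, eval ![c * x 0, c * x 2] r1 = 0 := by
    intro c
    refine (congrArg (fun z => eval z r1) ?_).trans (h1 (c • x) (hsf c) (hsg c))
    ext i
    fin_cases i
    · show c * x 0 = (c • x) (Equiv.swap 0 1 1)
      rw [Equiv.swap_apply_right]
      rfl
    · show c * x 2 = (c • x) (Equiv.swap 0 1 2)
      rw [Equiv.swap_apply_of_ne_of_ne (by decide) (by decide)]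
      rfl
  have k2 : ∀ c : K, eval ![c * x 1, c * x 0] r2 = 0 := by
    intro c
    refine (congrArg (fun z => eval z r2) ?_).trans (h2 (c • x) (hsf c) (hsg c))
    ext i
    fin_cases i
    · show c * x 1 = (c • x) (Equiv.swap 0 2 1)
      rw [Equiv.swap_apply_of_ne_of_ne (by decide) (by decide)]
      rfl
    · show c * x 0 = (c • x) (Equiv.swap 0 2 2)
      rw [Equiv.swap_apply_right]
      rfl
  by_cases hx2 : x 2 = 0
  · right
    by_cases hx1 : x 1 = 0
    · right
      have hx0 : x 0 ≠ 0 := by
        intro hx0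
        apply P.rep_nonzero
        rw [← hx]
        ext i
        fin_cases i
        · exact hx0
        · exact hx1
        · exact hx2
      rw [Set.mem_singleton_iff, hPmk, Projectivization.mk_eq_mk_iff']
      refine ⟨x 0, ?_⟩
      ext i
      fin_cases i
      · simp
      · simp [hx1]
      · simp [hx2]
    · left
      refine ⟨x 0 / x 1, ?_, ?_⟩
      · intro t
        refine (congrArg (fun z => eval z r2) ?_).trans (k2 (t / x 1))
        ext i
        fin_cases i
        · simp; field_simp
        · simp; field_simp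
      · rw [hPmk, Projectivization.mk_eq_mk_iff']
        refine ⟨(x 1)⁻¹, ?_⟩
        ext i
        fin_cases i
        · simp; field_simp
        · simp [hx1]
        · simp [hx2]
  · left
    refine ⟨(x 0 / x 2, x 1 / x 2), ⟨?_, ?_⟩, ?_⟩
    · intro t
      refine (congrArg (fun z => eval z r1) ?_).trans (k1 (t / x 2))
      ext i
      fin_cases i
      · simp; field_simp
      · simp; field_simp
    · intro t
      refine (congrArg (fun z => eval z r0) ?_).trans (k0 (t / x 2))
      ext i
      fin_cases i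
      · simp; field_simp
      · simp; field_simp
    · rw [hPmk, Projectivization.mk_eq_mk_iff']
      refine ⟨(x 2)⁻¹, ?_⟩
      ext i
      fin_cases i
      · simp; field_simp
      · simp; field_simp
      · simp [hx2]

end Pool.Agent.R863.FinPts
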