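import Mathlib
import Pool.Agent.R863.Forms

/-!
# A section of degree 8 of the pencil of cubics `x³ - y³ = t (y³ - z³)`
-/

set_option autoImplicit false

open MvPolynomial

namespace Pool.Agent.R863.Section

open Forms

variable {K : Type*} [Field K]

/-- the coefficients -/
def co : Fin 3 → Fin 9 → ℤ := ![
  ![1, 25, 40, -65, -275, -305, -125, -20, -5],
  ![1, -17, -107, -164, -155, -164, -107, -17, 1],
  ![-5, -20, -125, -305, -275, -65, 40, 25, 1]]

/-- the forms of degree 8 which give the section -/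
noncomputable def u (i : Fin 3) : MvPolynomial (Fin 2) K :=
  ∑ k : Fin 9, C ((co i k : ℤ) : K) * (X 0 ^ (k : ℕ) * X 1 ^ (8 - (k : ℕ)))

lemma u_hom (i : Fin 3) : (u i : MvPolynomial (Fin 2) K).IsHomogeneous 8 := by
  unfold u
  apply IsHomogeneous.sum
  intro k _
  have h := (isHomogeneous_C (Fin 2) ((co i k : ℤ) : K)).mul
    (((isHomogeneous_X K (0 : Fin 2)).pow (k : ℕ)).mul
      ((isHomogeneous_X K (1 : Fin 2)).pow (8 - (k : ℕ))))
  have hk : 0 + (1 * (k : ℕ) + 1 * (8 - (k : ℕ))) = 8 := by omega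
  rw [hk] at h
  exact h

/-- the three binary forms as functions -/
def v0 {R : Type*} [CommRing R] (a b : R) : R :=
  b ^ 8 + 25 * a * b ^ 7 + 40 * a ^ 2 * b ^ 6 - 65 * a ^ 3 * b ^ 5 - 275 * a ^ 4 * b ^ 4 -
    305 * a ^ 5 * b ^ 3 - 125 * a ^ 6 * b ^ 2 - 20 * a ^ 7 * b - 5 * a ^ 8
/-- the three binary forms as functions -/
def v1 {R : Type*} [CommRing R] (a b : R) : R :=
  b ^ 8 - 17 * a * b ^ 7 - 107 * a ^ 2 * b ^ 6 - 164 * a ^ 3 * b ^ 5 - 155 * a ^ 4 * b ^ 4 -
    164 * a ^ 5 * b ^ 3 - 107 * a ^ 6 * b ^ 2 - 17 * a ^ 7 * b + a ^ 8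
/-- the three binary forms as functions -/
def v2 {R : Type*} [CommRing R] (a b : R) : R :=
  -5 * b ^ 8 - 20 * a * b ^ 7 - 125 * a ^ 2 * b ^ 6 - 305 * a ^ 3 * b ^ 5 - 275 * a ^ 4 * b ^ 4 -
    65 * a ^ 5 * b ^ 3 + 40 * a ^ 6 * b ^ 2 + 25 * a ^ 7 * b + a ^ 8

lemma eval_u0 (τ : Fin 2 → K) : eval τ (u 0) = v0 (τ 0) (τ 1) := by
  unfold u v0
  simp [co, Fin.sum_univ_succ]
  ring

lemma eval_u1 (τ : Fin 2 → K) : eval τ (u 1) = v1 (τ 0) (τ 1) := by
  unfold u v1
  simp [co, Fin.sum_univ_succ]
  ring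

lemma eval_u2 (τ : Fin 2 → K) : eval τ (u 2) = v2 (τ 0) (τ 1) := by
  unfold u v2
  simp [co, Fin.sum_univ_succ]
  ring

lemma key {R : Type*} [CommRing R] (a b : R) :
    (v0 a b ^ 3 - v1 a b ^ 3) * b = (v1 a b ^ 3 - v2 a b ^ 3) * a := by
  unfold v0 v1 v2
  ring

/-- the pencil -/
noncomputable def A : Fin 2 → MvPolynomial (Fin 3) K :=
  ![X 0 ^ 3 - X 1 ^ 3, X 1 ^ 3 - X 2 ^ 3]

lemma A_hom (i : Fin 2) : (A i : MvPolynomial (Fin 3) K).IsHomogeneous 3 := by
  have h : ∀ j : Fin 3, (X j ^ 3 : MvPolynomial (Fin 3) K).IsHomogeneous 3 := fun j =>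
    isHomogeneous_X_pow j 3
  fin_cases i
  · exact (h 0).sub (h 1)
  · exact (h 1).sub (h 2)

lemma eval_A0 (x : Fin 3 → K) : eval x (A 0) = x 0 ^ 3 - x 1 ^ 3 := by simp [A]

lemma eval_A1 (x : Fin 3 → K) : eval x (A 1) = x 1 ^ 3 - x 2 ^ 3 := by simp [A]

lemma A_u (τ : Fin 2 → K) :
    eval (ev u τ) (A 0) * τ 1 = eval (ev u τ) (A 1) * τ 0 := by
  rw [eval_A0, eval_A1]
  simp only [ev_apply, eval_u0, eval_u1, eval_u2]
  exact key _ _

/-- the dehomogenized forms -/
noncomputable def U : Fin 3 → Polynomial K :=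
  ![v0 Polynomial.X 1, v1 Polynomial.X 1, v2 Polynomial.X 1]

lemma eval_U (s : K) (i : Fin 3) : (U i).eval s = eval ![s, 1] (u i) := by
  fin_cases i
  · show (v0 Polynomial.X 1).eval s = eval ![s, 1] (u 0)
    rw [eval_u0]
    simp [v0]
  · show (v1 Polynomial.X 1).eval s = eval ![s, 1] (u 1)
    rw [eval_u1]
    simp [v1]
  · show (v2 Polynomial.X 1).eval s = eval ![s, 1] (u 2)
    rw [eval_u2]
    simp [v2]

variable [CharZero K]

lemma cop : IsCoprime (U 1 : Polynomial K) (U 2) := by
  show IsCoprime (v1 Polynomial.X 1 : Polynomial K) (v2 Polynomial.X 1)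
  have hN : (Polynomial.C (1 / 177147 : K)) * 177147 = 1 := by
    have : (177147 : Polynomial K) = Polynomial.C 177147 := (map_ofNat Polynomial.C 177147).symm
    rw [this, ← Polynomial.C_mul]
    norm_num
  set t : Polynomial K := Polynomial.X with ht
  refine ⟨Polynomial.C (1 / 177147) * (7247 - 32876 * t - 473283 * t ^ 2 - 627115 * t ^ 3 -
      216965 * t ^ 4 + 73386 * t ^ 5 + 65072 * t ^ 6 + 2656 * t ^ 7),
    Polynomial.C (1 / 177147) * (-33980 + 104705 * t + 292716 * t ^ 2 + 233875 * t ^ 3 +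
      299225 * t ^ 4 + 261270 * t ^ 5 + 46480 * t ^ 6 - 2656 * t ^ 7), ?_⟩
  unfold v1 v2
  linear_combination hN

lemma deg1 : (U 1 : Polynomial K).natDegree = 8 := by
  show (v1 Polynomial.X 1 : Polynomial K).natDegree = 8
  unfold v1
  compute_degree!

lemma deg2 : (U 2 : Polynomial K).natDegree = 8 := by
  show (v2 Polynomial.X 1 : Polynomial K).natDegree = 8
  unfold v2
  compute_degree!

lemma ev_u_smul (c : K) (τ : Fin 2 → K) : ev u (c • τ) = c ^ 8 • ev u τ := ev_smul u_hom c τ

/-- the forms have no common zero -/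
lemma nz (τ : Fin 2 → K) (hτ : τ ≠ 0) : ev u τ ≠ 0 := by
  intro h
  by_cases h1 : τ 1 = 0
  · have h0 : τ 0 ≠ 0 := by
      intro h0
      apply hτ
      ext i
      fin_cases i
      · exact h0
      · exact h1
    have h2 := congrFun h 1
    rw [ev_apply, eval_u1, h1] at h2
    unfold v1 at h2
    simp at h2
    exact h0 h2
  · have hs : τ = τ 1 • ![τ 0 / τ 1, 1] := by
      ext i
      fin_cases i
      · simp; field_simp
      · simp
    rw [hs, ev_u_smul] at h
    have h2 : ev u ![τ 0 / τ 1, 1] = (0 : Fin 3 → K) := by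
      rcases smul_eq_zero.1 h with h' | h'
      · exact absurd h' (pow_ne_zero 8 h1)
      · exact h'
    obtain ⟨a, b, hab⟩ := cop (K := K)
    have h3 := congrArg (Polynomial.eval (τ 0 / τ 1)) hab
    have h4 := congrFun h2 1
    have h5 := congrFun h2 2
    rw [ev_apply, Pi.zero_apply, ← eval_U] at h4 h5
    rw [Polynomial.eval_add, Polynomial.eval_mul, Polynomial.eval_mul, h4, h5] at h3
    simp at h3

/-- `A 1` does not vanish at the point `s` of the curve, for all but finitely many `s` -/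
lemma bad_finite : {s : K | eval (ev u ![s, 1]) (A 1) = 0}.Finite := by
  have hp : ((U 1) ^ 3 - (U 2) ^ 3 : Polynomial K) ≠ 0 := by
    intro h
    have := congrArg (Polynomial.eval 0) h
    rw [Polynomial.eval_sub, Polynomial.eval_pow, Polynomial.eval_pow, eval_U, eval_U, eval_u1,
      eval_u2] at this
    simp [v1, v2] at this
    norm_num at this
  refine (Polynomial.finite_setOfPred_isRoot hp).subset ?_
  intro s hs
  simp only [Set.mem_ofPred_eq] at hs ⊢
  rw [eval_A1] at hs
  rw [Polynomial.IsRoot.def, Polynomial.eval_sub, Polynomial.eval_pow, Polynomial.eval_pow, eval_U,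
    eval_U]
  exact hs

/-- if the points with parameters `s`, `s'` agree then `s = s'` -/
lemma inj_param {s s' c : K} (hs : eval (ev u ![s, 1]) (A 1) ≠ 0)
    (h : ev u ![s, 1] = c • ev u ![s', 1]) : s = s' := by
  have h1 := A_u ![s, 1]
  have h2 := A_u ![s', 1]
  have e0 : eval (ev u ![s, 1]) (A 0) = c ^ 3 * eval (ev u ![s', 1]) (A 0) := by
    rw [h, eval_smul (A_hom 0)]
  have e1 : eval (ev u ![s, 1]) (A 1) = c ^ 3 * eval (ev u ![s', 1]) (A 1) := by
    rw [h, eval_smul (A_hom 1)]
  simp only [Matrix.cons_val_zero, Matrix.cons_val_one, mul_one] at h1 h2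
  have h3 : eval (ev u ![s, 1]) (A 1) * (s - s') = 0 := by
    linear_combination (-1 : K) * h1 + e0 + c ^ 3 * h2 - s' * e1
  exact sub_eq_zero.1 ((mul_eq_zero.1 h3).resolve_left hs)

variable [IsAlgClosed K]

/-- on most lines `x₁ = c x₂` there are 8 points of the curve -/
lemma many : ∃ S : Finset K, ∀ c ∉ S, ∃ Z : Finset K, Z.card = 8 ∧ ∀ s ∈ Z,
    eval ![s, 1] (u 1) = c * eval ![s, 1] (u 2) ∧ eval ![s, 1] (u 2) ≠ 0 ∧
      eval (ev u ![s, 1]) (A 1) ≠ 0 := by
  obtain ⟨S, hS, h⟩ := Curve.distinct_roots (cop (K := K)) (by rw [deg1, deg2]; norm_num)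
    (bad_finite (K := K))
  refine ⟨hS.toFinset, fun c hc => ?_⟩
  obtain ⟨Z, hZ, hZ'⟩ := h c (by simpa using hc)
  rw [deg1, deg2] at hZ
  refine ⟨Z, by simpa using hZ, fun s hs => ?_⟩
  obtain ⟨h1, h2, h3⟩ := hZ' s hs
  rw [eval_U, eval_U] at h1
  rw [eval_U] at h2
  exact ⟨h1, h2, h3⟩

/-- the last two forms are algebraically independent -/
lemma indep (r : MvPolynomial (Fin 2) K) (hr : aeval ![(u 1 : MvPolynomial (Fin 2) K), u 2] r = 0) : r = 0 := by
  classical
  obtain ⟨S, hS⟩ := many (K := K)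
  have hval : ∀ c ∉ S, ∀ v : K, eval ![c * v, v] r = 0 := by
    intro c hc v
    obtain ⟨Z, hZ, hZ'⟩ := hS c hc
    obtain ⟨s, hs⟩ : Z.Nonempty := by
      rw [← Finset.card_pos, hZ]; norm_num
    obtain ⟨h1, h2, -⟩ := hZ' s hs
    obtain ⟨σ, hσ⟩ := IsAlgClosed.exists_pow_nat_eq (v / eval ![s, 1] (u 2)) (n := 8) (by norm_num)
    have h3 := congrArg (eval (σ • ![s, 1])) hr
    rw [map_zero, eval_aeval] at h3
    have h4 : ev ![u 1, u 2] (σ • ![s, 1]) = ![c * v, v] := by
      have e1 : eval (σ • ![s, 1]) (u 1) = c * v := by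
        rw [eval_smul (u_hom 1), hσ, h1]
        field_simp
      have e2 : eval (σ • ![s, 1]) (u 2) = v := by
        rw [eval_smul (u_hom 2), hσ]
        field_simp
      ext i
      fin_cases i
      · exact e1
      · exact e2
    rw [h4] at h3
    exact h3
  have hD : r * (X 1 * ∏ c ∈ S, (X 0 - C c * X 1)) = 0 := by
    apply MvPolynomial.funext
    intro x
    rw [map_mul, map_mul, map_prod, map_zero, eval_X]
    by_cases hx1 : x 1 = 0
    · rw [hx1]; ring
    by_cases hx : x 0 / x 1 ∈ S
    · rw [Finset.prod_eq_zero hx]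
      · ring
      · simp only [map_sub, map_mul, eval_X, eval_C]
        field_simp
        ring
    · have := hval _ hx (x 1)
      have hx' : x = ![x 0 / x 1 * x 1, x 1] := by
        ext i
        fin_cases i
        · simp; field_simp
        · simp
      rw [← hx'] at this
      rw [this, zero_mul]
  rcases mul_eq_zero.1 hD with h | h
  · exact h
  · exfalso
    rcases mul_eq_zero.1 h with h | h
    · exact X_ne_zero _ h
    · rw [Finset.prod_eq_zero_iff] at h
      obtain ⟨c, -, hc⟩ := h
      have := congrArg (eval ![c + 1, 1]) hc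
      simp at this

/-- a form of degree less than 8 which vanishes on the curve is zero -/
lemma small_degree {d : ℕ} (hd : d < 8) (P : MvPolynomial (Fin 3) K) (hP : P.IsHomogeneous d)
    (h : ∀ s, eval (ev u ![s, 1]) P = 0) : P = 0 := by
  classical
  obtain ⟨S, hS⟩ := many (K := K)
  have hval : ∀ c ∉ S, ∀ x : K, eval ![x, c, 1] P = 0 := by
    intro c hc
    obtain ⟨Z, hZ, hZ'⟩ := hS c hc
    -- the polynomial in one variable
    let Q : Polynomial K := aeval ![Polynomial.X, Polynomial.C c, 1] P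
    have hsumQ : Q = ∑ m ∈ P.support, Polynomial.C (P.coeff m) *
        (Polynomial.X ^ m 0 * Polynomial.C c ^ m 1) := by
      simp only [Q]
      rw [aeval_def, eval₂_eq']
      refine Finset.sum_congr rfl fun m _ => ?_
      simp [Fin.prod_univ_three]
    have hQ : ∀ x, Q.eval x = eval ![x, c, 1] P := by
      intro x
      rw [hsumQ, Polynomial.eval_finsetSum, eval_eq']
      refine Finset.sum_congr rfl fun m _ => ?_
      simp [Fin.prod_univ_three]
    have hdeg : Q.natDegree ≤ d := by
      rw [hsumQ]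
      refine Polynomial.natDegree_sum_le_of_forall_le _ _ fun m hm => ?_
      have h2 : m 0 ≤ d := by
        have h3 := hP.degree_eq_sum_deg_support hm
        rw [h3]
        by_cases h0 : m 0 = 0
        · omega
        · exact Finset.single_le_sum (f := fun i => m i) (fun _ _ => Nat.zero_le _)
            (Finsupp.mem_support_iff.2 h0)
      refine (Polynomial.natDegree_C_mul_le _ _).trans ?_
      rw [← Polynomial.C_pow]
      refine (Polynomial.natDegree_mul_C_le _ _).trans ?_
      rw [Polynomial.natDegree_X_pow]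
      exact h2
    have hQ0 : Q = 0 := by
      by_contra hne
      have hsub : Z.image (fun s => eval ![s, 1] (u 0) / eval ![s, 1] (u 2)) ⊆
          Q.roots.toFinset := by
        intro x hx
        obtain ⟨s, hs, rfl⟩ := Finset.mem_image.1 hx
        obtain ⟨h1, h2, h3⟩ := hZ' s hs
        rw [Multiset.mem_toFinset, Polynomial.mem_roots hne, Polynomial.IsRoot.def, hQ]
        have h4 : ![eval ![s, 1] (u 0) / eval ![s, 1] (u 2), c, 1] =
            (eval ![s, 1] (u 2))⁻¹ • ev u ![s, 1] := by
          ext i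
          fin_cases i
          · simp; field_simp
          · simp [h1]; field_simp
          · simp [h2]
        rw [h4, eval_smul hP, h s, mul_zero]
      have hinj : Set.InjOn (fun s => eval ![s, 1] (u 0) / eval ![s, 1] (u 2)) (Z : Set K) := by
        intro s hs s' hs' hss
        obtain ⟨h1, h2, h3⟩ := hZ' s hs
        obtain ⟨h1', h2', h3'⟩ := hZ' s' hs'
        simp only at hss
        apply inj_param (c := eval ![s, 1] (u 2) / eval ![s', 1] (u 2)) h3
        ext i
        fin_cases i
        · simp only [Fin.zero_eta, ev_apply, Pi.smul_apply, smul_eq_mul]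
          field_simp at hss ⊢
          linear_combination hss
        · simp only [Fin.mk_one, ev_apply, Pi.smul_apply, smul_eq_mul]
          rw [h1, h1']
          field_simp
        · simp only [Fin.reduceFinMk, ev_apply, Pi.smul_apply, smul_eq_mul]
          field_simp
      have h5 := Finset.card_le_card hsub
      rw [Finset.card_image_of_injOn hinj, hZ] at h5
      have h6 := (Multiset.toFinset_card_le Q.roots).trans (Polynomial.card_roots' Q)
      omega
    intro x
    rw [← hQ, hQ0, Polynomial.eval_zero]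
  have hD : P * (X 2 * ∏ c ∈ S, (X 1 - C c * X 2)) = 0 := by
    apply MvPolynomial.funext
    intro x
    rw [map_mul, map_mul, map_prod, map_zero, eval_X]
    by_cases hx1 : x 2 = 0
    · rw [hx1]; ring
    by_cases hx : x 1 / x 2 ∈ S
    · rw [Finset.prod_eq_zero hx]
      · ring
      · simp only [map_sub, map_mul, eval_X, eval_C]
        field_simp
        ring
    · have := hval _ hx (x 0 / x 2)
      have hx' : x = x 2 • ![x 0 / x 2, x 1 / x 2, 1] := by
        ext i
        fin_cases i
        · simp; field_simp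
        · simp; field_simp
        · simp
      rw [hx', eval_smul hP, this]
      ring
  rcases mul_eq_zero.1 hD with h | h
  · exact h
  · exfalso
    rcases mul_eq_zero.1 h with h | h
    · exact X_ne_zero _ h
    · rw [Finset.prod_eq_zero_iff] at h
      obtain ⟨c, -, hc⟩ := h
      have := congrArg (eval ![0, c + 1, 1]) hc
      simp at this

/-- the pencil maps the point with parameter `τ` to `τ` -/
lemma hmul (τ : Fin 2 → K) : ∃ a : K, ev A (ev u τ) = a • τ := by
  have h := A_u τ
  by_cases h1 : τ 1 = 0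
  · by_cases h0 : τ 0 = 0
    · refine ⟨0, ?_⟩
      have hτ : τ = 0 := by
        ext i
        fin_cases i
        · exact h0
        · exact h1
      rw [hτ, ev_zero u_hom (by norm_num), ev_zero A_hom (by norm_num)]
      simp
    · refine ⟨eval (ev u τ) (A 0) / τ 0, ?_⟩
      rw [h1, mul_zero] at h
      have h2 := (mul_eq_zero.1 h.symm).resolve_right h0
      ext i
      fin_cases i
      · simp; field_simp
      · simp [h1, h2]
  · refine ⟨eval (ev u τ) (A 1) / τ 1, ?_⟩
    ext i
    fin_cases i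
    · simp
      field_simp
      linear_combination h
    · simp; field_simp

/-- the plane curve of the section -/
theorem exists_E : ∃ E : MvPolynomial (Fin 3) K, Irreducible E ∧ (∃ d, E.IsHomogeneous d) ∧
    aeval (u : Fin 3 → MvPolynomial (Fin 2) K) E = 0 ∧
      ∀ P, aeval (u : Fin 3 → MvPolynomial (Fin 2) K) P = 0 → E ∣ P := by
  refine exists_curve (n := 8) (by norm_num) u u_hom indep
    (N := X 0 * aeval (A : Fin 2 → MvPolynomial (Fin 3) K) (u 1 : MvPolynomial (Fin 2) K) -
      X 1 * aeval (A : Fin 2 → MvPolynomial (Fin 3) K) (u 0 : MvPolynomial (Fin 2) K)) ?_ ?_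
  · intro h
    have := congrArg (eval ![1, 0, 0]) h
    simp only [map_sub, map_mul, eval_X, eval_aeval, map_zero] at this
    have hA : ev (A : Fin 2 → MvPolynomial (Fin 3) K) ![1, 0, 0] = ![1, 0] := by
      ext i
      fin_cases i
      · simp [A]
      · simp [A]
    rw [hA, eval_u1, eval_u0] at this
    simp [v1] at this
  · apply MvPolynomial.funext
    intro τ
    obtain ⟨a, ha⟩ := hmul τ
    rw [map_zero, eval_aeval]
    simp only [map_sub, map_mul, eval_X, eval_aeval]
    rw [ha, eval_smul (u_hom 1), eval_smul (u_hom 0)]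
    simp only [ev_apply]
    ring

end Pool.Agent.R863.Section
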