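import Mathlib
import Pool.Agent.R864.PolyPow

/-!
# The degree of a Wronskian

The Wronskian of `r` polynomials of degree at most `N` has degree at most `r N - r (r - 1)`.
Consequence (Mason type bound): if `f₀ ^ d = ∑ i, b i * f i ^ d` with `k` polynomials `f i`, all
degrees equal to `D`, no common zero, all `b i ≠ 0` and the `f i ^ d` linearly independent, then
`D * (k + 1) * (d + 1 - k) + k * (k - 1) ≤ k * (D * d)`.
-/

set_option autoImplicit false

open Polynomial Matrix

namespace Pool.Agent.R863.WrDeg

/-- a set of `c` natural numbers has sum at least `c (c - 1) / 2` -/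
lemma card_mul_le_two_sum (s : Finset ℕ) : s.card * (s.card - 1) ≤ 2 * ∑ x ∈ s, x := by
  induction s using Finset.induction_on_max with
  | empty => simp
  | insert m s hm ih =>
    have hms : m ∉ s := fun h => lt_irrefl m (hm m h)
    rw [Finset.card_insert_of_notMem hms, Finset.sum_insert hms]
    have hcard : s.card ≤ m := by
      have : s ⊆ Finset.range m := fun x hx => Finset.mem_range.2 (hm x hx)
      simpa using Finset.card_le_card this
    rcases Nat.eq_zero_or_pos s.card with h | h
    · rw [h]; simp
    · obtain ⟨c, hc⟩ : ∃ c, s.card = c + 1 := ⟨s.card - 1, by omega⟩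
      rw [hc] at ih hcard ⊢
      simp only [Nat.add_sub_cancel] at ih ⊢
      nlinarith

lemma two_sum_le {r N : ℕ} (f : Fin r → ℕ) (hf : Function.Injective f) (hN : ∀ i, f i ≤ N) :
    2 * ∑ i, f i + r * (r - 1) ≤ 2 * (r * N) := by
  classical
  have hinj : Function.Injective (fun i => N - f i) := by
    intro i j hij
    apply hf
    have h1 := hN i
    have h2 := hN j
    simp only at hij
    omega
  have h1 := card_mul_le_two_sum (Finset.univ.image (fun i : Fin r => N - f i))
  rw [Finset.card_image_of_injective _ hinj, Finset.sum_image (fun i _ j _ h => hinj h),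
    Finset.card_univ, Fintype.card_fin] at h1
  have h2 : ∑ i, (N - f i) + ∑ i, f i = r * N := by
    rw [← Finset.sum_add_distrib]
    have : ∀ i : Fin r, N - f i + f i = N := fun i => Nat.sub_add_cancel (hN i)
    simp [this]
  omega

variable {K : Type*} [Field K] [CharZero K]

/-- the Wronskian -/
noncomputable def Wr {r : ℕ} (g : Fin r → K[X]) : K[X] :=
  (Matrix.of fun (i j : Fin r) => derivative^[(j : ℕ)] (g i)).det

omit [CharZero K] in
lemma natDegree_iter_add (g : K[X]) (n : ℕ) (h : derivative^[n] g ≠ 0) :
    (derivative^[n] g).natDegree + n ≤ g.natDegree := by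
  have h1 := natDegree_iterate_derivative g n
  have h2 : n ≤ g.natDegree := by
    by_contra hlt
    exact h (iterate_derivative_eq_zero (by omega))
  omega

omit [CharZero K] in
/-- naive bound -/
lemma naive {r : ℕ} (g : Fin r → K[X]) (hW : Wr g ≠ 0) :
    2 * (Wr g).natDegree + r * (r - 1) ≤ 2 * ∑ i, (g i).natDegree := by
  have hterm : ∀ σ : Equiv.Perm (Fin r),
      (∏ i : Fin r, derivative^[(i : ℕ)] (g (σ i))) ≠ 0 →
      2 * (∏ i : Fin r, derivative^[(i : ℕ)] (g (σ i))).natDegree + r * (r - 1) ≤
        2 * ∑ i, (g i).natDegree := by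
    intro σ h0
    have h1 : ∀ i : Fin r, derivative^[(i : ℕ)] (g (σ i)) ≠ 0 := by
      intro i
      exact (Finset.prod_ne_zero_iff.1 h0) i (Finset.mem_univ i)
    rw [natDegree_prod _ _ (fun i _ => h1 i)]
    have h2 : ∑ i : Fin r, ((derivative^[(i : ℕ)] (g (σ i))).natDegree + (i : ℕ)) ≤
        ∑ i : Fin r, (g (σ i)).natDegree :=
      Finset.sum_le_sum fun i _ => natDegree_iter_add _ _ (h1 i)
    rw [Finset.sum_add_distrib, Equiv.sum_comp σ (fun i => (g i).natDegree)] at h2
    have h3 : (∑ i : Fin r, (i : ℕ)) * 2 = r * (r - 1) := by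
      rw [Fin.sum_univ_eq_sum_range (fun i => i) r, Finset.sum_range_id_mul_two]
    omega
  have hex : ∃ σ : Equiv.Perm (Fin r), (∏ i : Fin r, derivative^[(i : ℕ)] (g (σ i))) ≠ 0 := by
    by_contra hall
    push Not at hall
    apply hW
    unfold Wr
    rw [Matrix.det_apply]
    refine Finset.sum_eq_zero fun σ _ => ?_
    simp only [Matrix.of_apply]
    rw [hall σ, smul_zero]
  obtain ⟨σ₀, hσ₀⟩ := hex
  have hr := hterm σ₀ hσ₀
  have hdeg : (Wr g).natDegree ≤ (2 * ∑ i, (g i).natDegree - r * (r - 1)) / 2 := by
    unfold Wr
    rw [Matrix.det_apply]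
    refine natDegree_sum_le_of_forall_le _ _ fun σ _ => ?_
    simp only [Matrix.of_apply]
    have h1 : (Equiv.Perm.sign σ • ∏ i : Fin r, derivative^[(i : ℕ)] (g (σ i))).natDegree ≤
        (∏ i : Fin r, derivative^[(i : ℕ)] (g (σ i))).natDegree := by
      rcases Int.units_eq_one_or (Equiv.Perm.sign σ) with h | h
      · rw [h, one_smul]
      · rw [h, Units.neg_smul, one_smul, natDegree_neg]
    refine h1.trans ?_
    by_cases h0 : (∏ i : Fin r, derivative^[(i : ℕ)] (g (σ i))) = 0
    · rw [h0]; simp
    · have := hterm σ h0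
      omega
  omega

omit [CharZero K] in
lemma wr_update {r : ℕ} (g : Fin r → K[X]) {i j : Fin r} (hij : i ≠ j) (c : K) :
    Wr (Function.update g i (g i + C c * g j)) = Wr g := by
  unfold Wr
  rw [← Matrix.det_updateRow_add_smul_self
    (Matrix.of fun (i j : Fin r) => derivative^[(j : ℕ)] (g i)) hij (C c)]
  congr 1
  ext1 l m
  by_cases hl : l = i
  · subst hl
    simp [Matrix.updateRow_self]
  · rw [Matrix.updateRow_ne hl]
    simp only [Matrix.of_apply, Function.update_of_ne hl]

omit [CharZero K] in
lemma wr_ne_row {r : ℕ} (g : Fin r → K[X]) (hW : Wr g ≠ 0) (i : Fin r) : g i ≠ 0 := by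
  intro h
  apply hW
  unfold Wr
  apply Matrix.det_eq_zero_of_row_eq_zero i
  intro j
  simp [h]

omit [CharZero K] in
/-- the refined bound -/
lemma wr_deg {r N : ℕ} : ∀ (S : ℕ) (g : Fin r → K[X]), ∑ i, (g i).natDegree = S →
    (∀ i, (g i).natDegree ≤ N) → Wr g ≠ 0 → (Wr g).natDegree + r * (r - 1) ≤ r * N := by
  intro S
  induction S using Nat.strong_induction_on with
  | _ S ih =>
    intro g hS hN hW
    by_cases hinj : Function.Injective (fun i => (g i).natDegree)
    · have h1 := naive g hW
      have h2 := two_sum_le _ hinj hN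
      omega
    · unfold Function.Injective at hinj
      push Not at hinj
      obtain ⟨i, j, hd, hij⟩ := hinj
      replace hd : (g i).natDegree = (g j).natDegree := hd
      have hgj := wr_ne_row g hW j
      have hgi := wr_ne_row g hW i
      set c : K := -((g i).leadingCoeff / (g j).leadingCoeff) with hc
      set g' := Function.update g i (g i + C c * g j) with hg'
      have hlc : (g i + C c * g j).coeff (g i).natDegree = 0 := by
        rw [coeff_add, coeff_C_mul]
        have : (g j).coeff (g i).natDegree = (g j).leadingCoeff := by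
          rw [hd]; rfl
        rw [this, hc]
        have hne : (g j).leadingCoeff ≠ 0 := leadingCoeff_ne_zero.2 hgj
        rw [coeff_natDegree]
        field_simp
        ring
      have hW' : Wr g' ≠ 0 := by
        rw [hg', wr_update g hij c]
        exact hW
      have hle : (g i + C c * g j).natDegree ≤ (g i).natDegree := by
        refine (natDegree_add_le _ _).trans (max_le le_rfl ?_)
        refine (natDegree_C_mul_le _ _).trans ?_
        rw [hd]
      have hne' : g i + C c * g j ≠ 0 := by
        have := wr_ne_row g' hW' i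
        rw [hg', Function.update_self] at this
        exact this
      have hlt : (g i + C c * g j).natDegree < (g i).natDegree := by
        refine lt_of_le_of_ne hle fun heq => ?_
        rw [← heq] at hlc
        exact hne' (leadingCoeff_eq_zero.1 hlc)
      have hsum : ∑ l, (g' l).natDegree < S := by
        rw [← hS]
        apply Finset.sum_lt_sum
        · intro l _
          by_cases hl : l = i
          · subst hl
            rw [hg', Function.update_self]
            exact hle
          · rw [hg', Function.update_of_ne hl]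
        · exact ⟨i, Finset.mem_univ i, by rw [hg', Function.update_self]; exact hlt⟩
      have hN' : ∀ l, (g' l).natDegree ≤ N := by
        intro l
        by_cases hl : l = i
        · subst hl
          rw [hg', Function.update_self]
          exact hle.trans (hN _)
        · rw [hg', Function.update_of_ne hl]
          exact hN l
      have := ih _ hsum g' rfl hN' hW'
      rw [hg', wr_update g hij c] at this
      exact this

omit [CharZero K] in
lemma pow_dvd_iter (f : K[X]) (d k j : ℕ) (hj : j < k) :
    f ^ (d + 1 - k) ∣ derivative^[j] (f ^ d) :=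
  (pow_dvd_pow f (by omega)).trans (pow_sub_dvd_iterate_derivative_pow f d j)

omit [CharZero K] in
/-- the Wronskian of `d`-th powers is divisible by the product of the `(d + 1 - k)`-th powers -/
lemma prod_dvd_wr {k d : ℕ} (f : Fin k → K[X]) :
    (∏ i, f i ^ (d + 1 - k)) ∣ Wr (fun i => f i ^ d) := by
  have h : ∀ i j : Fin k, ∃ u, derivative^[(j : ℕ)] (f i ^ d) = f i ^ (d + 1 - k) * u :=
    fun i j => pow_dvd_iter (f i) d k j j.2
  choose u hu using h
  refine ⟨(Matrix.of fun i j => u i j).det, ?_⟩
  unfold Wr
  rw [← Matrix.det_mul_column]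
  congr 1
  ext1 i j
  simp only [Matrix.of_apply]
  exact hu i j

/-- the Mason type bound, coprime case -/
theorem key {k d D : ℕ} (f : Fin k → K[X]) (f0 : K[X])
    (b : Fin k → K) (hb : ∀ i, b i ≠ 0) (hli : LinearIndependent K (fun i => f i ^ d))
    (hrel : f0 ^ d = ∑ i, C (b i) * f i ^ d)
    (hcop : (1 : K[X]) ∈ Ideal.span (insert f0 (Set.range f)))
    (hD0 : f0.natDegree = D) (hD : ∀ i, (f i).natDegree = D) (hf0 : f0 ≠ 0)
    (hf : ∀ i, f i ≠ 0) :
    (k + 1) * ((d + 1 - k) * D) + k * (k - 1) ≤ k * (d * D) := by
  classical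
  set e := d + 1 - k with he
  set W := Wr (fun i => f i ^ d) with hW
  have hW0 : W ≠ 0 := R864.PolyPow.wr_ne_zero k (fun i => f i ^ d) hli
  have hWdeg : W.natDegree + k * (k - 1) ≤ k * (d * D) := by
    refine wr_deg _ _ rfl (fun i => ?_) hW0
    rw [natDegree_pow, hD]
  set P := f0 ^ e * ∏ i, f i ^ e with hP
  have hP0 : P ≠ 0 :=
    mul_ne_zero (pow_ne_zero _ hf0) (Finset.prod_ne_zero_iff.2 fun i _ => pow_ne_zero _ (hf i))
  have hPdeg : P.natDegree = (k + 1) * (e * D) := by
    rw [hP, natDegree_mul (pow_ne_zero _ hf0)
      (Finset.prod_ne_zero_iff.2 fun i _ => pow_ne_zero _ (hf i)), natDegree_pow, hD0,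
      natDegree_prod _ _ (fun i _ => pow_ne_zero _ (hf i))]
    simp only [natDegree_pow, hD, Finset.sum_const, Finset.card_univ, Fintype.card_fin,
      smul_eq_mul]
    ring
  have h0 : P ∣ f0 ^ e * W := mul_dvd_mul_left _ (prod_dvd_wr f)
  have hj : ∀ j, P ∣ f j ^ e * W := by
    intro j
    have h1 : Wr (fun i => Function.update f j f0 i ^ d) = C (b j) * W := by
      have h2 : (Matrix.of fun (i m : Fin k) =>
          derivative^[(m : ℕ)] (Function.update f j f0 i ^ d)) =
          (Matrix.of fun (i m : Fin k) => derivative^[(m : ℕ)] (f i ^ d)).updateRow j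
            (∑ l : Fin k, (C (b l) : K[X]) •
              (Matrix.of fun (i m : Fin k) => derivative^[(m : ℕ)] (f i ^ d)) l) := by
        ext1 i m
        by_cases hij : i = j
        · subst hij
          rw [Matrix.updateRow_self]
          simp only [Matrix.of_apply, Function.update_self, Finset.sum_apply, Pi.smul_apply,
            smul_eq_mul]
          rw [hrel, Polynomial.iterate_derivative_sum]
          refine Finset.sum_congr rfl fun l _ => ?_
          rw [Polynomial.iterate_derivative_C_mul]
        · rw [Matrix.updateRow_ne hij]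
          simp only [Matrix.of_apply, Function.update_of_ne hij]
      unfold Wr
      rw [h2, Matrix.det_updateRow_sum, smul_eq_mul, hW]
      rfl
    have h3 : (∏ i, Function.update f j f0 i ^ e) ∣ C (b j) * W := by
      rw [← h1]
      exact prod_dvd_wr _
    have h4 : (∏ i, Function.update f j f0 i ^ e) ∣ W := by
      have : W = C (b j)⁻¹ * (C (b j) * W) := by
        rw [← mul_assoc, ← C_mul, inv_mul_cancel₀ (hb j), C_1, one_mul]
      rw [this]
      exact Dvd.dvd.mul_left h3 _
    have h5 : P = f j ^ e * ∏ i, Function.update f j f0 i ^ e := by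
      rw [hP, ← Finset.mul_prod_erase Finset.univ (fun i => f i ^ e) (Finset.mem_univ j),
        ← Finset.mul_prod_erase Finset.univ (fun i => Function.update f j f0 i ^ e)
          (Finset.mem_univ j), Function.update_self]
      have h6 : ∏ x ∈ Finset.univ.erase j, Function.update f j f0 x ^ e
          = ∏ x ∈ Finset.univ.erase j, f x ^ e := by
        refine Finset.prod_congr rfl fun x hx => ?_
        rw [Function.update_of_ne (Finset.ne_of_mem_erase hx)]
      rw [h6]
      ring
    rw [h5]
    exact mul_dvd_mul_left _ h4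
  have hPW : P ∣ W := by
    have hpow : Ideal.span ((fun x => x ^ e) '' (insert f0 (Set.range f))) = ⊤ :=
      Ideal.span_pow_eq_top _ ((Ideal.eq_top_iff_one _).2 hcop) e
    have hle : Ideal.span ((fun x => x ^ e) '' (insert f0 (Set.range f))) ≤
        Submodule.comap (LinearMap.toSpanSingleton K[X] K[X] W) (Ideal.span {P}) := by
      rw [Ideal.span_le]
      rintro _ ⟨x, hx, rfl⟩
      simp only [SetLike.mem_coe, Submodule.mem_comap, LinearMap.toSpanSingleton_apply,
        smul_eq_mul]
      rw [Ideal.mem_span_singleton]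
      rcases hx with hx | ⟨i, hi⟩
      · subst hx
        exact h0
      · subst hi
        exact hj i
    rw [hpow] at hle
    have h7 : (1 : K[X]) ∈ Submodule.comap (LinearMap.toSpanSingleton K[X] K[X] W)
      (Ideal.span {P}) := hle Submodule.mem_top
    simp only [Submodule.mem_comap, LinearMap.toSpanSingleton_apply, smul_eq_mul, one_mul] at h7
    exact Ideal.mem_span_singleton.1 h7
  have hfin := natDegree_le_of_dvd hPW hW0
  rw [hPdeg] at hfin
  omega

end Pool.Agent.R863.WrDeg
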