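import Mathlib
import Pool.Agent.R863.WrDeg

/-!
# Dependent `d`-th powers of six quadratic polynomials
-/

set_option autoImplicit false

open Polynomial

namespace Pool.Agent.R863.SixQuad

variable {K : Type*} [Field K] [CharZero K]

/-- If six pairwise nonproportional quadratic polynomials have linearly dependent `d`-th powers
then `d ≤ 14`. -/
theorem six (p : Fin 6 → K[X]) (hdeg : ∀ i, (p i).natDegree = 2)
    (hprop : ∀ i j, i ≠ j → ∀ c : K, p i ≠ C c * p j) (a : Fin 6 → K) (ha : ∃ i, a i ≠ 0)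
    {d : ℕ} (hd : 15 ≤ d) (hrel : ∑ i, C (a i) * p i ^ d = 0) : False := by
  classical
  have hp0 : ∀ i, p i ≠ 0 := by
    intro i h
    have := hdeg i
    rw [h] at this
    simp at this
  -- the supports of the relations
  let good : Finset (Fin 6) → Prop := fun s => s.Nonempty ∧ ∃ c : Fin 6 → K,
    (∀ i ∈ s, c i ≠ 0) ∧ ∑ i ∈ s, C (c i) * p i ^ d = 0
  have hgood : ∀ c : Fin 6 → K, ∑ i, C (c i) * p i ^ d = 0 → (∃ i, c i ≠ 0) →
      good (Finset.univ.filter fun i => c i ≠ 0) := by
    intro c hc ⟨i, hi⟩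
    refine ⟨⟨i, by simp [hi]⟩, c, fun i hi => by simpa using hi, ?_⟩
    rw [← hc]
    apply Finset.sum_subset (Finset.subset_univ _)
    intro j _ hj
    have : c j = 0 := by simpa using hj
    rw [this]
    simp
  obtain ⟨s, hs, hmin⟩ := Finset.exists_min_image (Finset.univ.filter good)
    (fun s => s.card) ⟨_, by
      rw [Finset.mem_filter]
      exact ⟨Finset.mem_univ _, hgood a hrel ha⟩⟩
  rw [Finset.mem_filter] at hs
  obtain ⟨-, ⟨j0, hj0⟩, c, hc, hcrel⟩ := hs
  have hmin' : ∀ t : Finset (Fin 6), good t → s.card ≤ t.card := fun t ht =>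
    hmin t (Finset.mem_filter.2 ⟨Finset.mem_univ _, ht⟩)
  set s' := s.erase j0 with hs'
  obtain ⟨k, hk⟩ : ∃ k, k = s'.card := ⟨_, rfl⟩
  have hcard : s.card = k + 1 := by
    rw [hk, hs', Finset.card_erase_of_mem hj0]
    have : 0 < s.card := Finset.card_pos.2 ⟨j0, hj0⟩
    omega
  have hk5 : k ≤ 5 := by
    have : s.card ≤ 6 := by
      simpa using Finset.card_le_univ s
    omega
  let e : Fin k ≃ s' := (Finset.equivFinOfCardEq hk.symm).symm
  let f : Fin k → K[X] := fun i => p (e i)
  have he : ∀ i, ((e i : s') : Fin 6) ∈ s ∧ ((e i : s') : Fin 6) ≠ j0 := by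
    intro i
    have := Finset.mem_erase.1 (e i).2
    exact ⟨this.2, this.1⟩
  have hsum : ∀ g : Fin 6 → K[X], ∑ i : Fin k, g (e i) = ∑ i ∈ s', g i := by
    intro g
    rw [← Finset.sum_coe_sort s']
    exact Equiv.sum_comp e (fun i : s' => g i)
  have hrel2 : C (c j0) * p j0 ^ d + ∑ i : Fin k, C (c (e i)) * f i ^ d = 0 := by
    rw [hsum (fun i => C (c i) * p i ^ d), hs',
      Finset.add_sum_erase s (fun i => C (c i) * p i ^ d) hj0]
    exact hcrel
  set b : Fin k → K := fun i => -(c (e i) / c j0) with hb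
  have hc0 := hc j0 hj0
  have hb0 : ∀ i, b i ≠ 0 := fun i => neg_ne_zero.2 (div_ne_zero (hc _ (he i).1) hc0)
  have hrel3 : p j0 ^ d = ∑ i, C (b i) * f i ^ d := by
    have h1 : p j0 ^ d = C (c j0)⁻¹ * (C (c j0) * p j0 ^ d) := by
      rw [← mul_assoc, ← C_mul, inv_mul_cancel₀ hc0, C_1, one_mul]
    rw [h1, eq_neg_of_add_eq_zero_left hrel2, mul_neg, Finset.mul_sum, ← Finset.sum_neg_distrib]
    refine Finset.sum_congr rfl fun i _ => ?_
    rw [hb]
    simp only
    rw [← mul_assoc, ← C_mul, ← neg_mul, ← C_neg]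
    congr 2
    field_simp
  have hkpos : 1 ≤ k := by
    by_contra hlt
    have hk0 : k = 0 := by omega
    subst hk0
    rw [Finset.univ_eq_empty, Finset.sum_empty] at hrel3
    exact pow_ne_zero d (hp0 j0) hrel3
  have hli : LinearIndependent K (fun i => f i ^ d) := by
    rw [Fintype.linearIndependent_iff]
    intro g hg
    by_contra hne
    push Not at hne
    obtain ⟨i0, hi0⟩ := hne
    -- extend by zero
    let g' : Fin 6 → K := fun j => if h : j ∈ s' then g (e.symm ⟨j, h⟩) else 0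
    have hg'e : ∀ i, g' (e i) = g i := by
      intro i
      have h : ((e i : s') : Fin 6) ∈ s' := (e i).2
      simp only [g', h, dif_pos]
      simp
    have hg'rel : ∑ i, C (g' i) * p i ^ d = 0 := by
      have h1 : ∑ i ∈ s', C (g' i) * p i ^ d = 0 := by
        rw [← hsum (fun i => C (g' i) * p i ^ d), ← hg]
        refine Finset.sum_congr rfl fun i _ => ?_
        rw [hg'e, smul_eq_C_mul]
      rw [← h1]
      symm
      apply Finset.sum_subset (Finset.subset_univ _)
      intro j _ hj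
      simp [g', hj]
    have h2 := hmin' _ (hgood g' hg'rel ⟨e i0, by rw [hg'e]; exact hi0⟩)
    have h3 : (Finset.univ.filter fun i => g' i ≠ 0) ⊆ s' := by
      intro j hj
      by_contra hns
      have : g' j = 0 := by simp [g', hns]
      simp [this] at hj
    have h4 := Finset.card_le_card h3
    omega
  -- divide by the common factor
  obtain ⟨G, f0', f', hG, hf0', hf', hcop⟩ := R864.PolyPow.exists_gcd_family f (p j0) (hp0 j0)
  have hf0'0 : f0' ≠ 0 := by
    intro h
    rw [h, mul_zero] at hf0'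
    exact hp0 _ hf0'
  have hf'0 : ∀ i, f' i ≠ 0 := by
    intro i h
    have := hf' i
    rw [h, mul_zero] at this
    exact hp0 _ this
  have hd0 : G.natDegree + f0'.natDegree = 2 := by
    rw [← natDegree_mul hG hf0'0, ← hf0', hdeg]
  have hdi : ∀ i, G.natDegree + (f' i).natDegree = 2 := by
    intro i
    rw [← natDegree_mul hG (hf'0 i), ← hf', hdeg]
  have hrel4 : f0' ^ d = ∑ i, C (b i) * f' i ^ d := by
    apply mul_left_cancel₀ (pow_ne_zero d hG)
    rw [← mul_pow, ← hf0', hrel3, Finset.mul_sum]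
    refine Finset.sum_congr rfl fun i _ => ?_
    rw [hf' i, mul_pow]
    ring
  have hli' : LinearIndependent K (fun i => f' i ^ d) := by
    rw [Fintype.linearIndependent_iff] at hli ⊢
    intro g hg
    apply hli g
    have : ∑ i, g i • f i ^ d = G ^ d * ∑ i, g i • f' i ^ d := by
      rw [Finset.mul_sum]
      refine Finset.sum_congr rfl fun i _ => ?_
      rw [hf' i, mul_pow, mul_smul_comm]
    rw [this, hg, mul_zero]
  obtain ⟨D, hD⟩ : ∃ D, D = f0'.natDegree := ⟨_, rfl⟩
  have hDi : ∀ i, (f' i).natDegree = D := by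
    intro i
    have := hdi i
    omega
  have hkey := WrDeg.key f' f0' b hb0 hli' hrel4 hcop hD.symm hDi hf0'0 hf'0
  have hD2 : D ≤ 2 := by omega
  have hD0 : D ≠ 0 := by
    intro h0
    have h1 : f0'.natDegree = 0 := by omega
    have h2 : (f' ⟨0, hkpos⟩).natDegree = 0 := by rw [hDi, h0]
    obtain ⟨x, hx⟩ := natDegree_eq_zero.1 h1
    obtain ⟨y, hy⟩ := natDegree_eq_zero.1 h2
    have hy0 : y ≠ 0 := by
      intro h
      apply hf'0 ⟨0, hkpos⟩
      rw [← hy, h, C_0]
    apply hprop j0 (e ⟨0, hkpos⟩) (he _).2.symm (x / y)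
    have h3 : p (e ⟨0, hkpos⟩) = G * f' ⟨0, hkpos⟩ := hf' ⟨0, hkpos⟩
    rw [h3, hf0', ← hx, ← hy]
    have h4 : (C x : K[X]) = C (x / y) * C y := by
      rw [← C_mul, div_mul_cancel₀ _ hy0]
    rw [h4]
    ring
  have hD12 : D = 1 ∨ D = 2 := by omega
  clear_value b
  rcases hD12 with rfl | rfl <;> interval_cases k <;> simp at hkey <;> omega

end Pool.Agent.R863.SixQuad
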